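import Pool.Agent.Q64.GL.Stm

/-!
# Project GL (helper64), job GRN: a Green formula on the half-plane
-/

set_option autoImplicit false

open MeasureTheory Set Filter Topology
open scoped ENNReal NNReal Real

namespace Pool.Agent.Q75.GL

open Pool.Agent.Q64.GL

theorem isOpen_HP : IsOpen HP := isOpen_lt continuous_const continuous_snd

theorem mem_HP {z y : ℝ} (hy : 0 < y) : ((z, y) : ℝ × ℝ) ∈ HP := hy

theorem hasDerivAt_snd {g : ℝ × ℝ → ℝ} (hg : ContDiffOn ℝ 1 g HP) (z : ℝ) {y : ℝ} (hy : 0 < y) :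
    HasDerivAt (fun t => g (z, t)) (fderiv ℝ g (z, y) (0, 1)) y := by
  have h1 : HasFDerivAt g (fderiv ℝ g (z, y)) (z, y) :=
    ((hg.differentiableOn (by norm_num)).differentiableAt
      (isOpen_HP.mem_nhds (mem_HP hy))).hasFDerivAt
  have h2 : HasDerivAt (fun t : ℝ => (z, t)) ((0 : ℝ), (1 : ℝ)) y :=
    (hasDerivAt_const y z).prodMk (hasDerivAt_id y)
  exact h1.comp_hasDerivAt y h2

theorem hasDerivAt_fst {g : ℝ × ℝ → ℝ} (hg : ContDiffOn ℝ 1 g HP) (z : ℝ) {y : ℝ} (hy : 0 < y) :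
    HasDerivAt (fun s => g (s, y)) (fderiv ℝ g (z, y) (1, 0)) z := by
  have h1 : HasFDerivAt g (fderiv ℝ g (z, y)) (z, y) :=
    ((hg.differentiableOn (by norm_num)).differentiableAt
      (isOpen_HP.mem_nhds (mem_HP hy))).hasFDerivAt
  have h2 : HasDerivAt (fun s : ℝ => (s, y)) ((1 : ℝ), (0 : ℝ)) z :=
    (hasDerivAt_id z).prodMk (hasDerivAt_const z y)
  exact h1.comp_hasDerivAt z h2

theorem cd1 {B : ℝ × ℝ → ℝ} (hB : ContDiffOn ℝ 2 B HP) (v : ℝ × ℝ) :
    ContDiffOn ℝ 1 (fun q => fderiv ℝ B q v) HP :=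
  (hB.fderiv_of_isOpen isOpen_HP (by norm_num)).clm_apply contDiffOn_const

theorem cd0 {g : ℝ × ℝ → ℝ} (hg : ContDiffOn ℝ 1 g HP) (v : ℝ × ℝ) :
    ContinuousOn (fun q => fderiv ℝ g q v) HP :=
  ((hg.fderiv_of_isOpen (m := 0) isOpen_HP (by norm_num)).clm_apply
    contDiffOn_const).continuousOn

/-- The two second derivatives as functions on the plane. -/
noncomputable def Byy (B : ℝ × ℝ → ℝ) (q : ℝ × ℝ) : ℝ :=
  fderiv ℝ (fun q => fderiv ℝ B q (0, 1)) q (0, 1)

noncomputable def Bzz (B : ℝ × ℝ → ℝ) (q : ℝ × ℝ) : ℝ :=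
  fderiv ℝ (fun q => fderiv ℝ B q (1, 0)) q (1, 0)

theorem dyy_eq {B : ℝ × ℝ → ℝ} (hB : ContDiffOn ℝ 2 B HP) (z : ℝ) {y : ℝ} (hy : 0 < y) :
    dyy B z y = Byy B (z, y) := by
  unfold dyy Byy
  have h1 : deriv (fun t => B (z, t)) =ᶠ[𝓝 y] fun t => fderiv ℝ B (z, t) (0, 1) := by
    filter_upwards [lt_mem_nhds hy] with t ht
    exact (hasDerivAt_snd (hB.of_le one_le_two) z ht).deriv
  rw [h1.deriv_eq]
  exact (hasDerivAt_snd (cd1 hB (0, 1)) z hy).deriv

theorem dzz_eq {B : ℝ × ℝ → ℝ} (hB : ContDiffOn ℝ 2 B HP) (z : ℝ) {y : ℝ} (hy : 0 < y) :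
    dzz B z y = Bzz B (z, y) := by
  unfold dzz Bzz
  have h1 : deriv (fun s => B (s, y)) = fun s => fderiv ℝ B (s, y) (1, 0) := by
    funext s
    exact (hasDerivAt_fst (hB.of_le one_le_two) s hy).deriv
  rw [h1]
  exact (hasDerivAt_fst (cd1 hB (1, 0)) z hy).deriv

/-- Integration by parts twice. -/
theorem parts {w w1 w2 g g1 g2 : ℝ → ℝ} {a b : ℝ} (hab : a ≤ b)
    (hw : ∀ x ∈ Icc a b, HasDerivAt w (w1 x) x) (hw1 : ∀ x ∈ Icc a b, HasDerivAt w1 (w2 x) x)
    (hg : ∀ x ∈ Icc a b, HasDerivAt g (g1 x) x) (hg1 : ∀ x ∈ Icc a b, HasDerivAt g1 (g2 x) x)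
    (hw2 : ContinuousOn w2 (Icc a b)) (hg2 : ContinuousOn g2 (Icc a b)) :
    ∫ x in Ioc a b, (w x * g2 x - w2 x * g x) =
      (w b * g1 b - w1 b * g b) - (w a * g1 a - w1 a * g a) := by
  rw [← intervalIntegral.integral_of_le hab]
  have hI : uIcc a b = Icc a b := uIcc_of_le hab
  refine intervalIntegral.integral_eq_sub_of_hasDerivAt (f := fun x => w x * g1 x - w1 x * g x)
    ?_ ?_
  · intro x hx
    rw [hI] at hx
    have h1 := ((hw x hx).mul (hg1 x hx)).sub ((hw1 x hx).mul (hg x hx))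
    refine h1.congr_deriv ?_
    ring
  · refine ContinuousOn.intervalIntegrable ?_
    rw [hI]
    have cw : ContinuousOn w (Icc a b) := fun x hx => (hw x hx).continuousAt.continuousWithinAt
    have cg : ContinuousOn g (Icc a b) := fun x hx => (hg x hx).continuousAt.continuousWithinAt
    exact (cw.mul hg2).sub (hw2.mul cg)

/-- The weight in the second variable. -/
noncomputable def aa (e M y : ℝ) : ℝ := (y - e) * (1 - (y - e) / M) ^ 2

noncomputable def aa1 (e M y : ℝ) : ℝ := (1 - (y - e) / M) * (1 - 3 * (y - e) / M)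

noncomputable def aa2 (e M y : ℝ) : ℝ := (-4 + 6 * (y - e) / M) / M

/-- The weight in the first variable. -/
noncomputable def ph (R z : ℝ) : ℝ := (1 - z ^ 2 / R ^ 2) ^ 2

noncomputable def ph1 (R z : ℝ) : ℝ := -4 * z / R ^ 2 * (1 - z ^ 2 / R ^ 2)

noncomputable def ph2 (R z : ℝ) : ℝ := -4 / R ^ 2 * (1 - z ^ 2 / R ^ 2) + 8 * z ^ 2 / R ^ 4

theorem hasDerivAt_aa (e : ℝ) {M : ℝ} (hM : 0 < M) (y : ℝ) :
    HasDerivAt (aa e M) (aa1 e M y) y := by
  have h1 : HasDerivAt (fun y : ℝ => y - e) 1 y := (hasDerivAt_id y).sub_const e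
  have h2 : HasDerivAt (fun y : ℝ => 1 - (y - e) / M) (-(1 / M)) y := (h1.div_const M).const_sub 1
  have h3 := h1.mul (h2.pow 2)
  refine h3.congr_deriv ?_
  unfold aa1
  simp only [Pi.pow_apply, Nat.add_one_sub_one, pow_one, Nat.cast_ofNat]
  field_simp
  ring

theorem hasDerivAt_aa1 (e : ℝ) {M : ℝ} (hM : 0 < M) (y : ℝ) :
    HasDerivAt (aa1 e M) (aa2 e M y) y := by
  have h1 : HasDerivAt (fun y : ℝ => y - e) 1 y := (hasDerivAt_id y).sub_const e
  have h2 : HasDerivAt (fun y : ℝ => 1 - (y - e) / M) (-(1 / M)) y := (h1.div_const M).const_sub 1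
  have h4 : HasDerivAt (fun y : ℝ => 1 - 3 * (y - e) / M) (-(3 * 1 / M)) y :=
    ((h1.const_mul 3).div_const M).const_sub 1
  have h3 := h2.mul h4
  refine h3.congr_deriv ?_
  unfold aa2
  field_simp
  ring

theorem hasDerivAt_ph {R : ℝ} (hR : 0 < R) (z : ℝ) : HasDerivAt (ph R) (ph1 R z) z := by
  have h1 : HasDerivAt (fun z : ℝ => z ^ 2) (2 * z) z := by simpa using hasDerivAt_pow 2 z
  have h2 : HasDerivAt (fun z : ℝ => 1 - z ^ 2 / R ^ 2) (-(2 * z / R ^ 2)) z :=
    (h1.div_const (R ^ 2)).const_sub 1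
  have h3 := h2.pow 2
  refine h3.congr_deriv ?_
  unfold ph1
  simp only [Nat.add_one_sub_one, pow_one, Nat.cast_ofNat]
  field_simp
  ring

theorem hasDerivAt_ph1 {R : ℝ} (hR : 0 < R) (z : ℝ) : HasDerivAt (ph1 R) (ph2 R z) z := by
  have h1 : HasDerivAt (fun z : ℝ => z ^ 2) (2 * z) z := by simpa using hasDerivAt_pow 2 z
  have h2 : HasDerivAt (fun z : ℝ => 1 - z ^ 2 / R ^ 2) (-(2 * z / R ^ 2)) z :=
    (h1.div_const (R ^ 2)).const_sub 1
  have h0 : HasDerivAt (fun z : ℝ => -4 * z / R ^ 2) (-4 * 1 / R ^ 2) z :=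
    ((hasDerivAt_id z).const_mul (-4)).div_const (R ^ 2)
  have h3 := h0.mul h2
  refine h3.congr_deriv ?_
  unfold ph2
  field_simp
  ring

theorem continuous_aa (e : ℝ) {M : ℝ} (hM : 0 < M) : Continuous (aa e M) :=
  continuous_iff_continuousAt.2 fun y => (hasDerivAt_aa e hM y).continuousAt

theorem continuous_aa2 (e M : ℝ) : Continuous (aa2 e M) := by
  unfold aa2
  fun_prop

theorem continuous_ph {R : ℝ} (hR : 0 < R) : Continuous (ph R) :=
  continuous_iff_continuousAt.2 fun y => (hasDerivAt_ph hR y).continuousAt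

theorem continuous_ph2 (R : ℝ) : Continuous (ph2 R) := by
  unfold ph2
  fun_prop

theorem aa_nonneg {e M y : ℝ} (hy : e ≤ y) : 0 ≤ aa e M y :=
  mul_nonneg (sub_nonneg.2 hy) (sq_nonneg _)

theorem aa_le {e M y : ℝ} (hM : 0 < M) (hy : e ≤ y) (hy2 : y ≤ e + M) : aa e M y ≤ M := by
  unfold aa
  have h1 : 0 ≤ (y - e) / M := div_nonneg (sub_nonneg.2 hy) hM.le
  have h2 : (y - e) / M ≤ 1 := by rw [div_le_one hM]; linarith
  have h3 : (1 - (y - e) / M) ^ 2 ≤ 1 := by nlinarith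
  have h4 : y - e ≤ M := by linarith
  have h5 : 0 ≤ y - e := by linarith
  nlinarith

theorem aa2_le {e M y : ℝ} (hM : 0 < M) (hy2 : y ≤ e + M) : aa2 e M y ≤ 2 / M := by
  unfold aa2
  have h2 : 6 * (y - e) / M ≤ 6 := by rw [div_le_iff₀ hM]; linarith
  gcongr
  linarith

theorem ph_nonneg (R z : ℝ) : 0 ≤ ph R z := sq_nonneg _

theorem ph_le {R z : ℝ} (hR : 0 < R) (h1 : -R ≤ z) (h2 : z ≤ R) : ph R z ≤ 1 := by
  unfold ph
  have h3 : z ^ 2 ≤ R ^ 2 := sq_le_sq' h1 h2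
  have h4 : z ^ 2 / R ^ 2 ≤ 1 := by rw [div_le_one (by positivity)]; exact h3
  have h5 : 0 ≤ z ^ 2 / R ^ 2 := by positivity
  nlinarith

theorem ph2_le {R z : ℝ} (hR : 0 < R) (h1 : -R ≤ z) (h2 : z ≤ R) : ph2 R z ≤ 8 / R ^ 2 := by
  unfold ph2
  have h3 : z ^ 2 ≤ R ^ 2 := sq_le_sq' h1 h2
  have h4 : z ^ 2 / R ^ 2 ≤ 1 := by rw [div_le_one (by positivity)]; exact h3
  have h6 : -4 / R ^ 2 * (1 - z ^ 2 / R ^ 2) ≤ 0 := by
    apply mul_nonpos_of_nonpos_of_nonneg
    · apply div_nonpos_of_nonpos_of_nonneg <;> [norm_num; positivity]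
    · linarith
  have h7 : 8 * z ^ 2 / R ^ 4 = 8 / R ^ 2 * (z ^ 2 / R ^ 2) := by
    field_simp
  have h8 : 8 / R ^ 2 * (z ^ 2 / R ^ 2) ≤ 8 / R ^ 2 := mul_le_of_le_one_right (by positivity) h4
  rw [h7]
  linarith

theorem slice_le {B : ℝ × ℝ → ℝ} {N : ℝ≥0} (hB0 : ∀ q ∈ HP, 0 ≤ B q)
    (hN : ∀ y : ℝ, 0 < y → ∫⁻ z, ENNReal.ofReal (B (z, y)) ≤ N) {y : ℝ} (hy : 0 < y)
    (s : Set ℝ) : ∫ z in s, B (z, y) ≤ N := by
  by_cases hi : IntegrableOn (fun z => B (z, y)) s
  · rw [integral_eq_lintegral_of_nonneg_ae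
      (Filter.Eventually.of_forall fun z => hB0 _ (mem_HP hy)) hi.aestronglyMeasurable]
    exact ENNReal.toReal_le_coe_of_le_coe (le_trans (setLIntegral_le_lintegral _ _) (hN y hy))
  · rw [integral_undef hi]
    exact N.coe_nonneg

/-- The measure on the box. -/
noncomputable def mb (e M R : ℝ) : Measure (ℝ × ℝ) :=
  (volume.restrict (Ioc (-R) R)).prod (volume.restrict (Ioc e (e + M)))

theorem mb_eq (e M R : ℝ) : mb e M R = volume.restrict (Ioc (-R) R ×ˢ Ioc e (e + M)) := by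
  unfold mb
  rw [Measure.prod_restrict, Measure.volume_eq_prod]

theorem integrable_mb {Ψ : ℝ × ℝ → ℝ} (hc : ContinuousOn Ψ HP) {e M R : ℝ} (he : 0 < e) :
    Integrable Ψ (mb e M R) := by
  rw [mb_eq]
  have h1 : ContinuousOn Ψ (Icc (-R) R ×ˢ Icc e (e + M)) := by
    refine hc.mono fun q hq => ?_
    exact lt_of_lt_of_le he hq.2.1
  have h2 : IntegrableOn Ψ (Icc (-R) R ×ˢ Icc e (e + M)) volume :=
    h1.integrableOn_compact (isCompact_Icc.prod isCompact_Icc)
  exact h2.mono_set (prod_mono Ioc_subset_Icc_self Ioc_subset_Icc_self)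

theorem ae_mb {e M R : ℝ} : ∀ᵐ q ∂(mb e M R), q.1 ∈ Ioc (-R) R ∧ q.2 ∈ Ioc e (e + M) := by
  rw [mb_eq]
  filter_upwards [ae_restrict_mem (measurableSet_Ioc.prod measurableSet_Ioc)] with q hq
  exact hq

theorem box_real {B : ℝ × ℝ → ℝ} {N : ℝ≥0} (hB : ContDiffOn ℝ 2 B HP) (hB0 : ∀ q ∈ HP, 0 ≤ B q)
    (hN : ∀ y : ℝ, 0 < y → ∫⁻ z, ENNReal.ofReal (B (z, y)) ≤ N)
    {e M R : ℝ} (he : 0 < e) (hM : 0 < M) (hR : 0 < R) :
    ∫ q, aa e M q.2 * ph R q.1 * (Bzz B q + Byy B q) ∂(mb e M R) ≤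
      (3 + 8 * M ^ 2 / R ^ 2) * N := by
  have cB : ContinuousOn B HP := hB.continuousOn
  have cyy : ContinuousOn (Byy B) HP := cd0 (cd1 hB (0, 1)) (0, 1)
  have czz : ContinuousOn (Bzz B) HP := cd0 (cd1 hB (1, 0)) (1, 0)
  have ca : ContinuousOn (fun q : ℝ × ℝ => aa e M q.2) HP :=
    ((continuous_aa e hM).comp continuous_snd).continuousOn
  have ca2 : ContinuousOn (fun q : ℝ × ℝ => aa2 e M q.2) HP :=
    ((continuous_aa2 e M).comp continuous_snd).continuousOn
  have cp : ContinuousOn (fun q : ℝ × ℝ => ph R q.1) HP :=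
    ((continuous_ph hR).comp continuous_fst).continuousOn
  have cp2 : ContinuousOn (fun q : ℝ × ℝ => ph2 R q.1) HP :=
    ((continuous_ph2 R).comp continuous_fst).continuousOn
  have i1 : Integrable (fun q : ℝ × ℝ =>
      ph R q.1 * (aa e M q.2 * Byy B q - aa2 e M q.2 * B q)) (mb e M R) :=
    integrable_mb (cp.mul ((ca.mul cyy).sub (ca2.mul cB))) he
  have i2 : Integrable (fun q : ℝ × ℝ =>
      aa e M q.2 * (ph R q.1 * Bzz B q - ph2 R q.1 * B q)) (mb e M R) :=
    integrable_mb (ca.mul ((cp.mul czz).sub (cp2.mul cB))) he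
  have i3 : Integrable (fun q : ℝ × ℝ =>
      (aa2 e M q.2 * ph R q.1 + aa e M q.2 * ph2 R q.1) * B q) (mb e M R) :=
    integrable_mb (((ca2.mul cp).add (ca.mul cp2)).mul cB) he
  have i4 : Integrable B (mb e M R) := integrable_mb cB he
  have t0 : ∫ q, aa e M q.2 * ph R q.1 * (Bzz B q + Byy B q) ∂(mb e M R) =
      (∫ q, ph R q.1 * (aa e M q.2 * Byy B q - aa2 e M q.2 * B q) ∂(mb e M R)) +
      (∫ q, aa e M q.2 * (ph R q.1 * Bzz B q - ph2 R q.1 * B q) ∂(mb e M R)) +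
      ∫ q, (aa2 e M q.2 * ph R q.1 + aa e M q.2 * ph2 R q.1) * B q ∂(mb e M R) := by
    have i12 : Integrable (fun q : ℝ × ℝ =>
        ph R q.1 * (aa e M q.2 * Byy B q - aa2 e M q.2 * B q) +
        aa e M q.2 * (ph R q.1 * Bzz B q - ph2 R q.1 * B q)) (mb e M R) := i1.add i2
    rw [← integral_add i1 i2, ← integral_add i12 i3]
    refine integral_congr_ae (Filter.Eventually.of_forall fun q => ?_)
    show aa e M q.2 * ph R q.1 * (Bzz B q + Byy B q) =
      ph R q.1 * (aa e M q.2 * Byy B q - aa2 e M q.2 * B q) +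
        aa e M q.2 * (ph R q.1 * Bzz B q - ph2 R q.1 * B q) +
        (aa2 e M q.2 * ph R q.1 + aa e M q.2 * ph2 R q.1) * B q
    ring
  have t1 : ∫ q, ph R q.1 * (aa e M q.2 * Byy B q - aa2 e M q.2 * B q) ∂(mb e M R) ≤ N := by
    have e1 : ∫ q, ph R q.1 * (aa e M q.2 * Byy B q - aa2 e M q.2 * B q) ∂(mb e M R)
        = ∫ z in Ioc (-R) R, ph R z * B (z, e) := by
      rw [mb, integral_prod _ i1]
      refine integral_congr_ae (Filter.Eventually.of_forall fun z => ?_)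
      show ∫ y in Ioc e (e + M), ph R z * (aa e M y * Byy B (z, y) - aa2 e M y * B (z, y))
        = ph R z * B (z, e)
      rw [integral_const_mul]
      congr 1
      have hpos : ∀ y ∈ Icc e (e + M), 0 < y := fun y hy => lt_of_lt_of_le he hy.1
      rw [parts (w := aa e M) (w1 := aa1 e M) (w2 := aa2 e M) (g := fun y => B (z, y))
        (g1 := fun y => fderiv ℝ B (z, y) (0, 1)) (g2 := fun y => Byy B (z, y))
        (by linarith) (fun y _ => hasDerivAt_aa e hM y) (fun y _ => hasDerivAt_aa1 e hM y)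
        (fun y hy => hasDerivAt_snd (hB.of_le one_le_two) z (hpos y hy))
        (fun y hy => hasDerivAt_snd (cd1 hB (0, 1)) z (hpos y hy))
        (continuous_aa2 e M).continuousOn
        (cyy.comp (by fun_prop) (fun y hy => mem_HP (hpos y hy)))]
      have v1 : aa e M (e + M) = 0 := by
        unfold aa
        have : (e + M - e) / M = 1 := by rw [add_sub_cancel_left, div_self hM.ne']
        rw [this]
        ring
      have v2 : aa1 e M (e + M) = 0 := by
        unfold aa1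
        have : (e + M - e) / M = 1 := by rw [add_sub_cancel_left, div_self hM.ne']
        rw [this]
        ring
      have v3 : aa e M e = 0 := by unfold aa; ring
      have v4 : aa1 e M e = 1 := by unfold aa1; simp
      rw [v1, v2, v3, v4]
      ring
    rw [e1]
    refine le_trans ?_ (slice_le hB0 hN he (Ioc (-R) R))
    have cBe : ContinuousOn (fun z => B (z, e)) (Icc (-R) R) :=
      cB.comp (by fun_prop) (fun z _ => mem_HP he)
    refine setIntegral_mono_on ?_ ?_ measurableSet_Ioc fun z hz => ?_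
    · exact ((((continuous_ph hR).continuousOn).mul cBe).integrableOn_compact
        isCompact_Icc).mono_set Ioc_subset_Icc_self
    · exact (cBe.integrableOn_compact isCompact_Icc).mono_set Ioc_subset_Icc_self
    · exact mul_le_of_le_one_left (hB0 _ (mem_HP he)) (ph_le hR hz.1.le hz.2)
  have t2 : ∫ q, aa e M q.2 * (ph R q.1 * Bzz B q - ph2 R q.1 * B q) ∂(mb e M R) = 0 := by
    rw [mb, integral_prod_symm _ i2]
    refine (integral_congr_ae ?_).trans (integral_zero _ _)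
    filter_upwards [ae_restrict_mem measurableSet_Ioc] with y hy
    have hy0 : 0 < y := he.trans hy.1
    show ∫ z in Ioc (-R) R, aa e M y * (ph R z * Bzz B (z, y) - ph2 R z * B (z, y)) = 0
    rw [integral_const_mul]
    rw [parts (w := ph R) (w1 := ph1 R) (w2 := ph2 R) (g := fun z => B (z, y))
      (g1 := fun z => fderiv ℝ B (z, y) (1, 0)) (g2 := fun z => Bzz B (z, y))
      (by linarith) (fun z _ => hasDerivAt_ph hR z) (fun z _ => hasDerivAt_ph1 hR z)
      (fun z _ => hasDerivAt_fst (hB.of_le one_le_two) z hy0)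
      (fun z _ => hasDerivAt_fst (cd1 hB (1, 0)) z hy0)
      (continuous_ph2 R).continuousOn
      (czz.comp (by fun_prop) (fun z _ => mem_HP hy0))]
    have v1 : ph R R = 0 := by unfold ph; rw [div_self (by positivity)]; ring
    have v2 : ph1 R R = 0 := by unfold ph1; rw [div_self (by positivity)]; ring
    have v3 : ph R (-R) = 0 := by unfold ph; rw [neg_sq, div_self (by positivity)]; ring
    have v4 : ph1 R (-R) = 0 := by unfold ph1; rw [neg_sq, div_self (by positivity)]; ring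
    rw [v1, v2, v3, v4]
    ring
  have t3 : ∫ q, (aa2 e M q.2 * ph R q.1 + aa e M q.2 * ph2 R q.1) * B q ∂(mb e M R) ≤
      (2 / M + M * (8 / R ^ 2)) * (M * N) := by
    have s1 : ∫ q, (aa2 e M q.2 * ph R q.1 + aa e M q.2 * ph2 R q.1) * B q ∂(mb e M R) ≤
        ∫ q, (2 / M + M * (8 / R ^ 2)) * B q ∂(mb e M R) := by
      refine integral_mono_ae i3 (i4.const_mul _) ?_
      filter_upwards [ae_mb] with q hq
      have hq0 : 0 ≤ B q := hB0 q (he.trans hq.2.1)
      refine mul_le_mul_of_nonneg_right (add_le_add ?_ ?_) hq0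
      · refine (mul_le_mul_of_nonneg_right (aa2_le hM hq.2.2) (ph_nonneg R q.1)).trans ?_
        exact mul_le_of_le_one_right (by positivity) (ph_le hR hq.1.1.le hq.1.2)
      · refine (mul_le_mul_of_nonneg_left (ph2_le hR hq.1.1.le hq.1.2)
          (aa_nonneg hq.2.1.le)).trans ?_
        exact mul_le_mul_of_nonneg_right (aa_le hM hq.2.1.le hq.2.2) (by positivity)
    refine s1.trans ?_
    rw [integral_const_mul]
    refine mul_le_mul_of_nonneg_left ?_ (by positivity)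
    rw [mb, integral_prod_symm _ i4]
    have s2 : ∀ y ∈ Ioc e (e + M), ∫ z in Ioc (-R) R, B (z, y) ≤ N := fun y hy =>
      slice_le hB0 hN (he.trans hy.1) _
    have s3 : ∫ y in Ioc e (e + M), ∫ z in Ioc (-R) R, B (z, y) ≤ ∫ _y in Ioc e (e + M), (N : ℝ) := by
      refine setIntegral_mono_on ?_ ?_ measurableSet_Ioc s2
      · have := i4.integral_prod_right
        exact this
      · exact integrableOn_const (by simp)
    refine s3.trans ?_
    rw [setIntegral_const, Real.volume_real_Ioc_of_le (by linarith)]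
    simp
  rw [t0, t2, add_zero]
  refine (add_le_add t1 t3).trans (le_of_eq ?_)
  field_simp
  ring

theorem box {B D : ℝ × ℝ → ℝ} {N : ℝ≥0} (hB : ContDiffOn ℝ 2 B HP)
    (hB0 : ∀ q ∈ HP, 0 ≤ B q) (hD0 : ∀ q ∈ HP, 0 ≤ D q)
    (hle : ∀ z y : ℝ, 0 < y → D (z, y) ≤ dzz B z y + dyy B z y)
    (hN : ∀ y : ℝ, 0 < y → ∫⁻ z, ENNReal.ofReal (B (z, y)) ≤ N)
    {e M R : ℝ} (he : 0 < e) (hM : 0 < M) (hR : 0 < R) :
    ∫⁻ z in Ioc (-R) R, ∫⁻ y in Ioc e (e + M),
      ENNReal.ofReal (aa e M y * ph R z * D (z, y)) ≤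
      ENNReal.ofReal ((3 + 8 * M ^ 2 / R ^ 2) * N) := by
  have cyy : ContinuousOn (Byy B) HP := cd0 (cd1 hB (0, 1)) (0, 1)
  have czz : ContinuousOn (Bzz B) HP := cd0 (cd1 hB (1, 0)) (1, 0)
  have ca : ContinuousOn (fun q : ℝ × ℝ => aa e M q.2) HP :=
    ((continuous_aa e hM).comp continuous_snd).continuousOn
  have cp : ContinuousOn (fun q : ℝ × ℝ => ph R q.1) HP :=
    ((continuous_ph hR).comp continuous_fst).continuousOn
  have i0 : Integrable (fun q : ℝ × ℝ => aa e M q.2 * ph R q.1 * (Bzz B q + Byy B q))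
      (mb e M R) := integrable_mb ((ca.mul cp).mul (czz.add cyy)) he
  have hlap : ∀ q ∈ HP, D q ≤ Bzz B q + Byy B q := by
    rintro ⟨z, y⟩ hq
    have := hle z y hq
    rwa [dzz_eq hB z hq, dyy_eq hB z hq] at this
  calc ∫⁻ z in Ioc (-R) R, ∫⁻ y in Ioc e (e + M), ENNReal.ofReal (aa e M y * ph R z * D (z, y))
      ≤ ∫⁻ z in Ioc (-R) R, ∫⁻ y in Ioc e (e + M),
        ENNReal.ofReal (aa e M y * ph R z * (Bzz B (z, y) + Byy B (z, y))) := by
        refine lintegral_mono fun z => ?_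
        refine setLIntegral_mono' measurableSet_Ioc fun y hy => ?_
        refine ENNReal.ofReal_le_ofReal ?_
        refine mul_le_mul_of_nonneg_left (hlap (z, y) (he.trans hy.1)) ?_
        exact mul_nonneg (aa_nonneg hy.1.le) (ph_nonneg R z)
    _ = ∫⁻ q, ENNReal.ofReal (aa e M q.2 * ph R q.1 * (Bzz B q + Byy B q)) ∂(mb e M R) := by
        rw [mb, lintegral_prod]
        exact i0.aestronglyMeasurable.aemeasurable.ennreal_ofReal
    _ = ENNReal.ofReal (∫ q, aa e M q.2 * ph R q.1 * (Bzz B q + Byy B q) ∂(mb e M R)) := by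
        rw [ofReal_integral_eq_lintegral_ofReal i0]
        filter_upwards [ae_mb] with q hq
        have hq0 : q ∈ HP := he.trans hq.2.1
        exact mul_nonneg (mul_nonneg (aa_nonneg hq.2.1.le) (ph_nonneg R q.1))
          ((hD0 q hq0).trans (hlap q hq0))
    _ ≤ ENNReal.ofReal ((3 + 8 * M ^ 2 / R ^ 2) * N) :=
        ENNReal.ofReal_le_ofReal (box_real hB hB0 hN he hM hR)

/-- The parameters of the exhaustion. -/
noncomputable def en (n : ℕ) : ℝ := 1 / ((n : ℝ) + 1)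

noncomputable def mn (n : ℕ) : ℝ := (n : ℝ) + 2

noncomputable def rn (n : ℕ) : ℝ := ((n : ℝ) + 2) ^ 2

/-- The truncated functions. -/
noncomputable def hn (D : ℝ × ℝ → ℝ) (n : ℕ) : ℝ × ℝ → ℝ≥0∞ :=
  (Ioc (-rn n) (rn n) ×ˢ Ioc (en n) (en n + mn n)).indicator
    fun q => ENNReal.ofReal (aa (en n) (mn n) q.2 * ph (rn n) q.1 * D q)

theorem en_pos (n : ℕ) : 0 < en n := by unfold en; positivity

theorem mn_pos (n : ℕ) : 0 < mn n := by unfold mn; positivity

theorem rn_pos (n : ℕ) : 0 < rn n := by unfold rn; positivity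

theorem measurable_hn {D : ℝ × ℝ → ℝ} (hD : Measurable D) (n : ℕ) : Measurable (hn D n) := by
  refine Measurable.indicator ?_ (measurableSet_Ioc.prod measurableSet_Ioc)
  refine ENNReal.measurable_ofReal.comp (Measurable.mul (Measurable.mul ?_ ?_) hD)
  · exact ((continuous_aa _ (mn_pos n)).comp continuous_snd).measurable
  · exact ((continuous_ph (rn_pos n)).comp continuous_fst).measurable

theorem lintegral_hn_le {B D : ℝ × ℝ → ℝ} {N : ℝ≥0} (hB : ContDiffOn ℝ 2 B HP)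
    (hB0 : ∀ q ∈ HP, 0 ≤ B q) (hD0 : ∀ q ∈ HP, 0 ≤ D q)
    (hle : ∀ z y : ℝ, 0 < y → D (z, y) ≤ dzz B z y + dyy B z y)
    (hN : ∀ y : ℝ, 0 < y → ∫⁻ z, ENNReal.ofReal (B (z, y)) ≤ N) (n : ℕ) :
    ∫⁻ z, ∫⁻ y in Ioi (0 : ℝ), hn D n (z, y) ≤ 7 * N := by
  have h1 : ∫⁻ z, ∫⁻ y in Ioi (0 : ℝ), hn D n (z, y) ≤
      ∫⁻ z in Ioc (-rn n) (rn n), ∫⁻ y in Ioc (en n) (en n + mn n),
        ENNReal.ofReal (aa (en n) (mn n) y * ph (rn n) z * D (z, y)) := by
    rw [← lintegral_indicator measurableSet_Ioc]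
    refine lintegral_mono fun z => ?_
    by_cases hz : z ∈ Ioc (-rn n) (rn n)
    · rw [indicator_of_mem hz, ← lintegral_indicator measurableSet_Ioc]
      refine (setLIntegral_le_lintegral _ _).trans (lintegral_mono fun y => ?_)
      by_cases hy : y ∈ Ioc (en n) (en n + mn n)
      · rw [indicator_of_mem hy, hn, indicator_of_mem (mk_mem_prod hz hy)]
      · rw [hn, indicator_of_notMem (fun h => hy h.2)]
        exact zero_le
    · rw [indicator_of_notMem hz]
      have : ∀ y, hn D n (z, y) = 0 := fun y => by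
        rw [hn, indicator_of_notMem (fun h => hz h.1)]
      simp [this]
  refine h1.trans ((box hB hB0 hD0 hle hN (en_pos n) (mn_pos n) (rn_pos n)).trans ?_)
  have h2 : (3 + 8 * mn n ^ 2 / rn n ^ 2) * (N : ℝ) ≤ 7 * N := by
    refine mul_le_mul_of_nonneg_right ?_ N.coe_nonneg
    have h3 : 8 * mn n ^ 2 / rn n ^ 2 ≤ 4 := by
      unfold mn rn
      have h4 : (2 : ℝ) ≤ (n : ℝ) + 2 := by linarith [Nat.cast_nonneg (α := ℝ) n]
      set t : ℝ := (n : ℝ) + 2
      rw [div_le_iff₀ (by positivity)]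
      have h5 : (4 : ℝ) ≤ t ^ 2 := by nlinarith
      nlinarith [sq_nonneg t]
    linarith
  refine (ENNReal.ofReal_le_ofReal h2).trans (le_of_eq ?_)
  rw [ENNReal.ofReal_mul (by norm_num), ENNReal.ofReal_coe_nnreal]
  norm_num

theorem tendsto_hn {D : ℝ × ℝ → ℝ} (z : ℝ) {y : ℝ} (hy : 0 < y) :
    Tendsto (fun n => hn D n (z, y)) atTop (𝓝 (ENNReal.ofReal (y * D (z, y)))) := by
  have he : Tendsto en atTop (𝓝 0) := tendsto_one_div_add_atTop_nhds_zero_nat
  have hm : Tendsto mn atTop atTop :=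
    tendsto_atTop_add_const_right _ _ tendsto_natCast_atTop_atTop
  have hr : Tendsto rn atTop atTop := by
    have : rn = fun n => mn n ^ 2 := rfl
    rw [this]
    exact (tendsto_pow_atTop two_ne_zero).comp hm
  have h1 : Tendsto (fun n => aa (en n) (mn n) y) atTop (𝓝 y) := by
    unfold aa
    have a1 : Tendsto (fun n => y - en n) atTop (𝓝 (y - 0)) := tendsto_const_nhds.sub he
    have a2 : Tendsto (fun n => (y - en n) / mn n) atTop (𝓝 0) := a1.div_atTop hm
    have a3 := a1.mul ((tendsto_const_nhds (x := (1 : ℝ)).sub a2).pow 2)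
    simpa using a3
  have h2 : Tendsto (fun n => ph (rn n) z) atTop (𝓝 1) := by
    unfold ph
    have a2 : Tendsto (fun n => z ^ 2 / rn n ^ 2) atTop (𝓝 0) :=
      tendsto_const_nhds.div_atTop ((tendsto_pow_atTop two_ne_zero).comp hr)
    have a3 := (tendsto_const_nhds (x := (1 : ℝ)).sub a2).pow 2
    simpa using a3
  have h3 : Tendsto (fun n => ENNReal.ofReal (aa (en n) (mn n) y * ph (rn n) z * D (z, y))) atTop
      (𝓝 (ENNReal.ofReal (y * D (z, y)))) := by
    have a3 := (h1.mul h2).mul_const (D (z, y))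
    rw [mul_one] at a3
    exact (ENNReal.continuous_ofReal.tendsto _).comp a3
  refine h3.congr' ?_
  filter_upwards [he.eventually (gt_mem_nhds hy), hm.eventually (eventually_ge_atTop y),
    hr.eventually (eventually_gt_atTop |z|)] with n n1 n2 n3
  rw [hn, indicator_of_mem]
  refine mk_mem_prod ⟨(abs_lt.1 n3).1, (abs_lt.1 n3).2.le⟩ ⟨n1, ?_⟩
  have := en_pos n
  linarith

/-- **GRN**. -/
theorem grn : S_GRN := by
  intro B D N hB hD hB0 hD0 hle hN
  have hm2 : ∀ n, Measurable fun z => ∫⁻ y in Ioi (0 : ℝ), hn D n (z, y) := fun n =>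
    (measurable_hn hD n).lintegral_prod_right'
  calc ∫⁻ z, ∫⁻ y in Ioi (0 : ℝ), ENNReal.ofReal (y * D (z, y))
      ≤ ∫⁻ z, liminf (fun n => ∫⁻ y in Ioi (0 : ℝ), hn D n (z, y)) atTop := by
        refine lintegral_mono fun z => ?_
        refine le_trans ?_ (lintegral_liminf_le
          (fun n => (measurable_hn hD n).comp measurable_prodMk_left))
        refine setLIntegral_mono' measurableSet_Ioi fun y hy => ?_
        exact (tendsto_hn z hy).liminf_eq.ge
    _ ≤ liminf (fun n => ∫⁻ z, ∫⁻ y in Ioi (0 : ℝ), hn D n (z, y)) atTop :=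
        lintegral_liminf_le hm2
    _ ≤ liminf (fun _ : ℕ => (7 * N : ℝ≥0∞)) atTop :=
        liminf_le_liminf (Filter.Eventually.of_forall fun n =>
          lintegral_hn_le hB hB0 hD0 hle hN n)
    _ = 7 * N := by simp

end Pool.Agent.Q75.GL
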