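import Pool.Agent.Q64.GL.Stm

/-!
# Project GL (helper64), job POI: the Poisson integral as an imaginary part
-/

set_option autoImplicit false

open MeasureTheory Set Filter Topology
open scoped ENNReal NNReal Real

namespace Pool.Agent.Q75.GL

open Pool.Agent.Q64.GL

/-- The kernel `(1 + x ζ) / (x - ζ)`. -/
noncomputable def KK (ζ : ℂ) (x : ℝ) : ℂ := ζ + (1 + ζ ^ 2) / ((x : ℂ) - ζ)

/-- Its derivative in `ζ`. -/
noncomputable def KD (ζ : ℂ) (x : ℝ) : ℂ :=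
  1 + 2 * ζ / ((x : ℂ) - ζ) + (1 + ζ ^ 2) / ((x : ℂ) - ζ) ^ 2

theorem sub_ne {ζ : ℂ} (h : 0 < ζ.im) (x : ℝ) : (x : ℂ) - ζ ≠ 0 := by
  intro h0
  have := congrArg Complex.im h0
  simp at this
  linarith

theorem im_le_norm_sub (ζ : ℂ) (x : ℝ) (h : 0 < ζ.im) : ζ.im ≤ ‖(x : ℂ) - ζ‖ := by
  have h1 := Complex.abs_im_le_norm ((x : ℂ) - ζ)
  simp only [Complex.sub_im, Complex.ofReal_im, zero_sub, abs_neg] at h1
  rwa [abs_of_pos h] at h1

theorem KK_im (z y x : ℝ) (hy : 0 < y) :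
    (KK ⟨z, y⟩ x).im = (1 + x ^ 2) * (y / ((z - x) ^ 2 + y ^ 2)) := by
  have hne : (x : ℂ) - (⟨z, y⟩ : ℂ) ≠ 0 := sub_ne (ζ := ⟨z, y⟩) hy x
  have h1 : KK ⟨z, y⟩ x = (1 + (x : ℂ) * ⟨z, y⟩) / ((x : ℂ) - ⟨z, y⟩) := by
    unfold KK
    field_simp
    ring
  rw [h1, Complex.div_im]
  have hn : Complex.normSq ((x : ℂ) - ⟨z, y⟩) = (z - x) ^ 2 + y ^ 2 := by
    rw [Complex.normSq_apply]
    simp
    ring
  rw [hn]
  have hpos : (z - x) ^ 2 + y ^ 2 ≠ 0 := by positivity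
  simp only [Complex.add_im, Complex.one_im, Complex.mul_im, Complex.ofReal_re, Complex.ofReal_im,
    Complex.sub_re, Complex.sub_im, Complex.add_re, Complex.one_re, Complex.mul_re]
  field_simp
  ring

theorem hasDerivAt_KK {ζ : ℂ} (h : 0 < ζ.im) (x : ℝ) :
    HasDerivAt (fun ζ => KK ζ x) (KD ζ x) ζ := by
  have hne := sub_ne h x
  have h1 : HasDerivAt (fun ζ : ℂ => 1 + ζ ^ 2) (2 * ζ) ζ := by
    simpa using ((hasDerivAt_id ζ).pow 2).const_add 1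
  have h2 : HasDerivAt (fun ζ : ℂ => (x : ℂ) - ζ) (-1) ζ := by
    simpa using (hasDerivAt_id ζ).const_sub (x : ℂ)
  have h3 := (hasDerivAt_id ζ).add (h1.div h2 hne)
  refine h3.congr_deriv ?_
  unfold KD
  field_simp
  ring

theorem continuous_KK {ζ : ℂ} (h : 0 < ζ.im) : Continuous (fun x : ℝ => KK ζ x) := by
  unfold KK
  refine continuous_const.add (continuous_const.div ?_ (fun x => sub_ne h x))
  exact Complex.continuous_ofReal.sub continuous_const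

theorem continuous_KD {ζ : ℂ} (h : 0 < ζ.im) : Continuous (fun x : ℝ => KD ζ x) := by
  unfold KD
  have hc : Continuous (fun x : ℝ => (x : ℂ) - ζ) := Complex.continuous_ofReal.sub continuous_const
  refine (continuous_const.add (continuous_const.div hc (fun x => sub_ne h x))).add
    (continuous_const.div (hc.pow 2) (fun x => pow_ne_zero _ (sub_ne h x)))

theorem KK_bound {ζ : ℂ} (h : 0 < ζ.im) (x : ℝ) :
    ‖KK ζ x‖ ≤ ‖ζ‖ + (1 + ‖ζ‖ ^ 2) / ζ.im := by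
  unfold KK
  refine (norm_add_le _ _).trans ?_
  rw [norm_div]
  have h1 : ‖(1 : ℂ) + ζ ^ 2‖ ≤ 1 + ‖ζ‖ ^ 2 := by
    refine (norm_add_le _ _).trans ?_
    rw [norm_one, norm_pow]
  have h2 := im_le_norm_sub ζ x h
  gcongr

theorem KD_bound {ζ : ℂ} {δ R : ℝ} (hδ : 0 < δ) (h : δ ≤ ζ.im) (hR : ‖ζ‖ ≤ R) (x : ℝ) :
    ‖KD ζ x‖ ≤ 1 + 2 * R / δ + (1 + R ^ 2) / δ ^ 2 := by
  have h0 : 0 < ζ.im := lt_of_lt_of_le hδ h
  have hR0 : 0 ≤ R := (norm_nonneg _).trans hR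
  have h2 : δ ≤ ‖(x : ℂ) - ζ‖ := h.trans (im_le_norm_sub ζ x h0)
  unfold KD
  refine (norm_add_le _ _).trans ?_
  refine add_le_add ((norm_add_le _ _).trans ?_) ?_
  · rw [norm_one, norm_div, norm_mul]
    have : ‖(2 : ℂ)‖ = 2 := by simp
    rw [this]
    gcongr
  · rw [norm_div, norm_pow]
    have h1 : ‖(1 : ℂ) + ζ ^ 2‖ ≤ 1 + R ^ 2 := by
      refine (norm_add_le _ _).trans ?_
      rw [norm_one, norm_pow]
      gcongr
    gcongr

/-- The holomorphic function. -/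
noncomputable def GG (f : ℝ → ℝ) (ζ : ℂ) : ℂ :=
  (1 / π : ℂ) * ∫ x : ℝ, ((f x / (1 + x ^ 2) : ℝ) : ℂ) * KK ζ x

theorem integrable_KK {f : ℝ → ℝ} (hf : Integrable (fun x => f x / (1 + x ^ 2)) volume) {ζ : ℂ}
    (h : 0 < ζ.im) : Integrable (fun x : ℝ => ((f x / (1 + x ^ 2) : ℝ) : ℂ) * KK ζ x) volume := by
  refine (hf.ofReal (𝕜 := ℂ)).mul_bdd (c := ‖ζ‖ + (1 + ‖ζ‖ ^ 2) / ζ.im)
    (continuous_KK h).aestronglyMeasurable ?_
  exact Filter.Eventually.of_forall fun x => KK_bound h x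

theorem hasDerivAt_GG {f : ℝ → ℝ} (hf : Integrable (fun x => f x / (1 + x ^ 2)) volume) {ζ₀ : ℂ}
    (h : 0 < ζ₀.im) : HasDerivAt (GG f)
      ((1 / π : ℂ) * ∫ x : ℝ, ((f x / (1 + x ^ 2) : ℝ) : ℂ) * KD ζ₀ x) ζ₀ := by
  set δ : ℝ := ζ₀.im / 2 with hδ
  have hδ0 : 0 < δ := by positivity
  set R : ℝ := ‖ζ₀‖ + δ with hR
  have hball : ∀ ζ ∈ Metric.ball ζ₀ δ, δ ≤ ζ.im ∧ ‖ζ‖ ≤ R := by
    intro ζ hζ
    rw [Metric.mem_ball, dist_eq_norm] at hζ
    constructor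
    · have h1 := Complex.abs_im_le_norm (ζ - ζ₀)
      rw [Complex.sub_im] at h1
      have h2 := (abs_le.1 (h1.trans hζ.le)).1
      rw [hδ] at h2 ⊢
      linarith
    · have : ζ = ζ₀ + (ζ - ζ₀) := by ring
      rw [this]
      exact (norm_add_le _ _).trans (add_le_add le_rfl hζ.le)
  have key := hasDerivAt_integral_of_dominated_loc_of_deriv_le (μ := volume)
    (F := fun ζ (x : ℝ) => ((f x / (1 + x ^ 2) : ℝ) : ℂ) * KK ζ x)
    (F' := fun ζ (x : ℝ) => ((f x / (1 + x ^ 2) : ℝ) : ℂ) * KD ζ x) (x₀ := ζ₀)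
    (bound := fun x => ‖f x / (1 + x ^ 2)‖ * (1 + 2 * R / δ + (1 + R ^ 2) / δ ^ 2))
    (Metric.ball_mem_nhds ζ₀ hδ0) ?_ (integrable_KK hf h) ?_ ?_ ?_ ?_
  · exact key.2.const_mul _
  · filter_upwards [Metric.ball_mem_nhds ζ₀ hδ0] with ζ hζ
    exact (integrable_KK hf (lt_of_lt_of_le hδ0 (hball ζ hζ).1)).aestronglyMeasurable
  · exact (hf.ofReal (𝕜 := ℂ)).aestronglyMeasurable.mul (continuous_KD h).aestronglyMeasurable
  · refine Filter.Eventually.of_forall fun x ζ hζ => ?_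
    rw [norm_mul, Complex.norm_real]
    exact mul_le_mul_of_nonneg_left (KD_bound hδ0 (hball ζ hζ).1 (hball ζ hζ).2 x) (norm_nonneg _)
  · exact hf.norm.mul_const _
  · refine Filter.Eventually.of_forall fun x ζ hζ => ?_
    exact (hasDerivAt_KK (lt_of_lt_of_le hδ0 (hball ζ hζ).1) x).const_mul _

theorem poisson_eq {f : ℝ → ℝ} (hf : Integrable (fun x => f x / (1 + x ^ 2)) volume) (z y : ℝ)
    (hy : 0 < y) : poisson f z y = (GG f ⟨z, y⟩).im := by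
  have h1 : (GG f ⟨z, y⟩).im
      = (1 / π) * (∫ x : ℝ, ((f x / (1 + x ^ 2) : ℝ) : ℂ) * KK ⟨z, y⟩ x).im := by
    unfold GG
    have : (1 / π : ℂ) = ((1 / π : ℝ) : ℂ) := by push_cast; rfl
    rw [this, Complex.im_ofReal_mul]
  have h2 : (∫ x : ℝ, ((f x / (1 + x ^ 2) : ℝ) : ℂ) * KK ⟨z, y⟩ x).im
      = ∫ x : ℝ, y * f x / ((z - x) ^ 2 + y ^ 2) := by
    have h3 := integral_im (𝕜 := ℂ) (integrable_KK hf (ζ := ⟨z, y⟩) hy)
    have h4 : (∫ x : ℝ, ((f x / (1 + x ^ 2) : ℝ) : ℂ) * KK ⟨z, y⟩ x).im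
      = ∫ x : ℝ, (((f x / (1 + x ^ 2) : ℝ) : ℂ) * KK ⟨z, y⟩ x).im := by
      simpa using h3.symm
    rw [h4]
    refine integral_congr_ae (Filter.Eventually.of_forall fun x => ?_)
    show (((f x / (1 + x ^ 2) : ℝ) : ℂ) * KK ⟨z, y⟩ x).im = y * f x / ((z - x) ^ 2 + y ^ 2)
    rw [Complex.im_ofReal_mul, KK_im z y x hy]
    have hpos : (z - x) ^ 2 + y ^ 2 ≠ 0 := by positivity
    have hpos2 : 1 + x ^ 2 ≠ 0 := by positivity
    field_simp
  rw [h1, h2]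
  unfold poisson
  congr 1
  have h5 := integral_sub_left_eq_self (fun u : ℝ => y * f u / ((z - u) ^ 2 + y ^ 2)) volume z
  rw [← h5]
  refine integral_congr_ae (Filter.Eventually.of_forall fun x => ?_)
  show y * f (z - x) / (x ^ 2 + y ^ 2) = y * f (z - x) / ((z - (z - x)) ^ 2 + y ^ 2)
  rw [sub_sub_cancel]

/-- **POI**. -/
theorem poi : S_POI := by
  intro f hf
  have hD : ∀ ζ : ℂ, 0 < ζ.im → HasDerivAt (GG f) (deriv (GG f) ζ) ζ := fun ζ hζ =>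
    (hasDerivAt_GG hf hζ).differentiableAt.hasDerivAt
  have hz : ∀ z y : ℝ, 0 < y → HasDerivAt (fun s => poisson f s y) (deriv (GG f) ⟨z, y⟩).im z := by
    intro z y hy
    have h1 : HasDerivAt (fun s : ℝ => (⟨s, y⟩ : ℂ)) 1 z := by
      have h2 : (fun s : ℝ => (⟨s, y⟩ : ℂ)) = fun s : ℝ => (s : ℂ) + (y : ℂ) * Complex.I := by
        funext s
        apply Complex.ext <;> simp
      rw [h2]
      simpa using (Complex.ofRealCLM.hasDerivAt (x := z)).add_const ((y : ℂ) * Complex.I)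
    have h3 := (hD ⟨z, y⟩ hy).comp_of_eq z h1 rfl
    have h4 := (Complex.imCLM.hasFDerivAt (x := GG f ⟨z, y⟩)).comp_hasDerivAt z h3
    have h5 : (fun s => poisson f s y) = fun s => (GG f ⟨s, y⟩).im := by
      funext s
      exact poisson_eq hf s y hy
    rw [h5]
    refine (h4.congr_deriv ?_)
    simp
  have hy' : ∀ z y : ℝ, 0 < y → HasDerivAt (fun t => poisson f z t) (deriv (GG f) ⟨z, y⟩).re y := by
    intro z y hy
    have h1 : HasDerivAt (fun t : ℝ => (⟨z, t⟩ : ℂ)) Complex.I y := by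
      have h2 : (fun t : ℝ => (⟨z, t⟩ : ℂ)) = fun t : ℝ => (z : ℂ) + (t : ℂ) * Complex.I := by
        funext s
        apply Complex.ext <;> simp
      rw [h2]
      simpa using ((Complex.ofRealCLM.hasDerivAt (x := y)).mul_const Complex.I).const_add (z : ℂ)
    have h3 := (hD ⟨z, y⟩ hy).comp_of_eq y h1 rfl
    have h4 := (Complex.imCLM.hasFDerivAt (x := GG f ⟨z, y⟩)).comp_hasDerivAt y h3
    have h5 : (fun t => poisson f z t) =ᶠ[𝓝 y] fun t => (GG f ⟨z, t⟩).im := by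
      filter_upwards [lt_mem_nhds hy] with t ht
      exact poisson_eq hf z t ht
    refine HasDerivAt.congr_of_eventuallyEq ?_ h5
    refine (h4.congr_deriv ?_)
    simp
  refine ⟨GG f, ?_, fun z y hy => poisson_eq hf z y hy, fun z y hy => ⟨hz z y hy, hy' z y hy, ?_⟩⟩
  · intro ζ hζ
    exact (hD ζ hζ).differentiableAt.differentiableWithinAt
  · unfold gradSq
    rw [(hz z y hy).deriv, (hy' z y hy).deriv, ← Complex.normSq_eq_norm_sq, Complex.normSq_apply]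
    ring

end Pool.Agent.Q75.GL
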